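import Pool.Agent.Y42.Cov.Main

set_option autoImplicit false

/-!
# Minimum `p ^ n`-covers: a single exponential bound for the exponent, uniform in `p`

The starting file `UniformExplicit` bounds `log_p m(p, n)` by the double exponential
`(n + 1) ^ ((n + 1) ^ (n + 3))`, the starting file `UpperBound` by `n (n + 1) p ^ ⌊(n - 1) / 2⌋`.
Here we prove `log_p m(p, n) ≤ n ^ 3 4 ^ (n + 2)` for all primes `p > n` and all primes `p ≤ 13`,
and a bound of the shape `n ^ (n / 2 + O (1))` for all primes.  For groups of bounded class the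
exponent is polynomial in `n`.

The starting library (`Pool.Agent.H596Q`) constructs on every group `G` of order `p ^ n` and class
`c < p` an injective polynomial function of degree `c` into an abelian group.  New here: (1) the
translates of such a function generate an abelian group with at most `2 ^ (n + 2)` and at most
`(n + c).choose c` generators (a count with weights along a central series which refines the
lower central series); (2) the automorphism groups of all abelian groups with at most `M`
generators and exponent dividing `p ^ n` embed into the one of a single abelian group.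
-/

namespace Pool.Agent.Results.MP_1000ca_al.SingleExponential

open Pool.Agent.Y42.Cov Pool.Agent.H596Q

/-- `G` is a finite group such that every group of order `p ^ n` is isomorphic to a
subgroup of `G`. -/
def IsCover (p n : ℕ) (G : Type) [Group G] : Prop :=
  Finite G ∧ ∀ (H : Type) [Group H], Nat.card H = p ^ n → ∃ K : Subgroup G, Nonempty (H ≃* K)

/-- The set of orders of the finite groups that contain every group of order `p ^ n`. -/
def coverOrders (p n : ℕ) : Set ℕ :=
  {k | ∃ (G : Type) (_ : Group G), IsCover p n G ∧ Nat.card G = k}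

/-- The order `m(p, n)` of a smallest finite group that contains every group of order `p ^ n`. -/
noncomputable def minCoverOrder (p n : ℕ) : ℕ := sInf (coverOrders p n)

theorem embeds {G H : Type} [Group G] [Group H] (h : ∃ f : H →* G, Function.Injective f) :
    ∃ K : Subgroup G, Nonempty (H ≃* K) := by
  obtain ⟨f, hf⟩ := h
  exact ⟨f.range, ⟨MonoidHom.ofInjective hf⟩⟩

/-- the bound with `p` in the exponent -/
theorem bound_small (p n : ℕ) (hp : p.Prime) :
    ∃ k ∈ coverOrders p n, k ≤ p ^ (n * (n + 1) * p ^ ((n - 1) / 2)) := by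
  obtain ⟨P, _, hfin, hcard, hP⟩ := small p n hp
  exact ⟨_, ⟨P, inferInstance, ⟨hfin, fun H _ hH => embeds (hP H hH)⟩, rfl⟩, hcard⟩

/-- groups of class at most `c < p` -/
theorem bound_class (p n c : ℕ) (hp : p.Prime) (hc : c < p) :
    ∃ (G : Type) (_ : Group G), Finite G ∧
      Nat.card G ≤ p ^ (n ^ 3 * min (2 ^ (n + 2)) ((n + c).choose c) ^ 2) ∧
      ∀ (H : Type) [Group H], Nat.card H = p ^ n → (⊤ : Subgroup H).lowerCentralSeries c = ⊥ →
        ∃ K : Subgroup G, Nonempty (H ≃* K) := by
  have : Fact p.Prime := ⟨hp⟩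
  rcases le_total (2 ^ (n + 2)) ((n + c).choose c) with h | h
  · rw [min_eq_left h]
    refine ⟨Au (BB p n (2 ^ (n + 2))), inferInstance, (card_Au p n _).1, (card_Au p n _).2, ?_⟩
    intro H _ hH hcl
    refine embeds (embed_class hH (le_bot_iff.1 ?_))
    rw [← hcl]
    exact Subgroup.lowerCentralSeries_antitone _ (by omega)
  · rw [min_eq_right h]
    refine ⟨Au (BB p n ((n + c).choose c)), inferInstance, (card_Au p n _).1, (card_Au p n _).2,
      ?_⟩
    intro H _ hH hcl
    have e : (n + c).choose c = (n + c).choose n := Nat.choose_symm_add.symm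
    rw [e]
    exact embeds (embed_choose hH hc hcl)

/-- the bound for `n < p` -/
theorem bound_big (p n : ℕ) (hp : p.Prime) (hn : n < p) :
    ∃ k ∈ coverOrders p n, k ≤ p ^ (n ^ 3 * 4 ^ (n + 2)) := by
  have : Fact p.Prime := ⟨hp⟩
  obtain ⟨G, _, hfin, hcard, hG⟩ := bound_class p n n hp hn
  refine ⟨_, ⟨G, inferInstance, ⟨hfin, fun H _ hH => ?_⟩, rfl⟩, hcard.trans ?_⟩
  · have : Finite H := Nat.finite_of_card_ne_zero (by rw [hH]; exact pow_ne_zero _ hp.ne_zero)
    exact hG H hH (lcs_bot hH)
  · apply Nat.pow_le_pow_right hp.pos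
    apply Nat.mul_le_mul_left
    calc min (2 ^ (n + 2)) ((n + n).choose n) ^ 2 ≤ (2 ^ (n + 2)) ^ 2 :=
          Nat.pow_le_pow_left (min_le_left _ _) 2
      _ = 4 ^ (n + 2) := by rw [← pow_mul, mul_comm, pow_mul]; norm_num

theorem nn_le (n : ℕ) : n * (n + 1) ≤ n ^ 3 * 2 := by
  rcases Nat.eq_zero_or_pos n with rfl | hn
  · simp
  · nlinarith [Nat.mul_le_mul hn hn, Nat.mul_le_mul (Nat.mul_le_mul hn hn) hn]

/-- For every prime `p` and every `n`:

* `minCoverOrder p n` is the order of a smallest group containing every group of order `p ^ n`;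
* if `n < p` or `p ≤ 16` it is at most `p ^ (n ^ 3 * 4 ^ (n + 2))`;
* in every case it is at most
  `p ^ (n ^ 3 * 4 ^ (n + 2) + n * (n + 1) * n ^ ⌊(n - 1) / 2⌋)`;
* for `c < p` some group of order at most
  `p ^ (n ^ 3 * (min (2 ^ (n + 2)) ((n + c).choose c)) ^ 2)` contains every group of order `p ^ n`
  and nilpotency class at most `c`. -/
theorem result (p n : ℕ) (hp : p.Prime) :
    IsLeast (coverOrders p n) (minCoverOrder p n) ∧
      (n < p ∨ p ≤ 16 → minCoverOrder p n ≤ p ^ (n ^ 3 * 4 ^ (n + 2))) ∧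
      minCoverOrder p n ≤ p ^ (n ^ 3 * 4 ^ (n + 2) + n * (n + 1) * n ^ ((n - 1) / 2)) ∧
      ∀ c < p, ∃ (G : Type) (_ : Group G), Finite G ∧
        Nat.card G ≤ p ^ (n ^ 3 * min (2 ^ (n + 2)) ((n + c).choose c) ^ 2) ∧
        ∀ (H : Type) [Group H], Nat.card H = p ^ n → (⊤ : Subgroup H).lowerCentralSeries c = ⊥ →
          ∃ K : Subgroup G, Nonempty (H ≃* K) := by
  obtain ⟨k, hk, hle⟩ := bound_small p n hp
  have hmin : minCoverOrder p n ≤ p ^ (n * (n + 1) * p ^ ((n - 1) / 2)) :=
    (Nat.sInf_le hk).trans hle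
  have hbig : n < p → minCoverOrder p n ≤ p ^ (n ^ 3 * 4 ^ (n + 2)) := by
    intro hn
    obtain ⟨k, hk, hle⟩ := bound_big p n hp hn
    exact (Nat.sInf_le hk).trans hle
  refine ⟨⟨Nat.sInf_mem ⟨k, hk⟩, fun m hm => Nat.sInf_le hm⟩, ?_, ?_,
    fun c hc => bound_class p n c hp hc⟩
  · rintro (hn | hp16)
    · exact hbig hn
    · refine hmin.trans (Nat.pow_le_pow_right hp.pos ?_)
      have h1 : p ^ ((n - 1) / 2) ≤ 4 ^ n := by
        calc p ^ ((n - 1) / 2) ≤ (4 ^ 2) ^ ((n - 1) / 2) := Nat.pow_le_pow_left (by omega) _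
          _ = 4 ^ (2 * ((n - 1) / 2)) := by rw [← pow_mul]
          _ ≤ 4 ^ n := Nat.pow_le_pow_right (by norm_num) (by omega)
      calc n * (n + 1) * p ^ ((n - 1) / 2) ≤ n ^ 3 * 2 * 4 ^ n := Nat.mul_le_mul (nn_le n) h1
        _ ≤ n ^ 3 * 16 * 4 ^ n := by
            apply Nat.mul_le_mul_right
            exact Nat.mul_le_mul_left _ (by norm_num)
        _ = n ^ 3 * 4 ^ (n + 2) := by ring
  · rcases Nat.lt_or_ge n p with hn | hn
    · exact (hbig hn).trans (Nat.pow_le_pow_right hp.pos (Nat.le_add_right _ _))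
    · refine hmin.trans (Nat.pow_le_pow_right hp.pos ?_)
      refine le_trans ?_ (Nat.le_add_left _ _)
      exact Nat.mul_le_mul_left _ (Nat.pow_le_pow_left hn _)

end Pool.Agent.Results.MP_1000ca_al.SingleExponential
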